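import Pool.Agent.Q57.WM.Fam
import Pool.Agent.Q57.PL.Slopes

/-!
# MP_cd312e_ag: maximal ranks of the powers of the monodromy operator

`X` is a smooth proper variety over a finite extension `K` of `ℚ_p` whose residue field has `q`
elements. The varieties `SmVar K` are schemes of Mathlib; the cohomology theories `Theories` (the
`ℓ`-adic cohomology for all `ℓ ≠ p`, and the Hyodo-Kato cohomology) are data with the known properties
`IsLocal` (for `X`). Let `S_k = ∑_{r > k} rank (N ^ r)` on `H^m(X)` and
`W_k = ∑_w (2 (w - m - k) - 1)^+`, the sum being over the weights `w` of the eigenvalues of the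
Frobenius on `H^m(X)`.

If the Frobenius has one rational characteristic polynomial on `H^m(X)` in all theories (`SameCharP`; for
instance if the cohomology in the degrees `j ≠ m` is good, `GoodOutside`), then
`W_k ≤ ∑_λ (2 (2 λ - m - k) - 1)^+ ≤ ∑_{a + b = m} (2 (a - b - k) - 1)^+ h^(a, b)` for every
theory, `W_k` does not depend on the theory, and the conjecture for `H^m` holds above `k` if `S_k` reaches
the bound given by the Hodge numbers.
-/

set_option autoImplicit false

open Module

universe u v w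

namespace Pool.Agent.Results.MP_cd312e_ag.MaximalRanks

open Pool.Agent.H914 Pool.Agent.Y163.MW Pool.Agent.Y143 Pool.Agent.Y163.MX Pool.Agent.Q57.WM

section

variable {K : Type u} [Field K] {Ω : Type w} [Field Ω] [CharZero Ω]

/-- The Frobenius has on `H^m(X)` the same rational characteristic polynomial in all theories. -/
def SameCharP (T : Theories.{u, v, w} K Ω) (X : SmVar.{u} K) (m : ℕ) : Prop :=
  (∀ i : Option T.ι, RationalPoly (charP (T.H i X) m)) ∧
    ∀ i i' : Option T.ι, charP (T.H i X) m = charP (T.H i' X) m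

/-- For every theory and every `k` the inequalities
`∑_w (2 (w - m - k) - 1)^+ ≤ ∑_λ (2 (2 λ - m - k) - 1)^+ ≤ ∑_{a + b = m} (2 (a - b - k) - 1)^+ h^(a, b)`,
and the first sum is the same for all theories. -/
def Chain (T : Theories.{u, v, w} K Ω) (q : ℕ) (X : SmVar.{u} K) (m : ℕ) : Prop :=
  (∀ (i : Option T.ι) (k : ℕ),
    (weightTail (T.H i X) q m k : ℝ) ≤ slopeTail (T.H i X) T.val m k ∧
    slopeTail (T.H i X) T.val m k ≤ (hodgeTail m k (T.hodge X m) : ℝ)) ∧
  ∀ (i i' : Option T.ι) (k : ℕ), weightTail (T.H i X) q m k = weightTail (T.H i' X) q m k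

/-- If `∑_{r > k} rank (N ^ r)` is at least `∑ (2 (a - b - k) - 1)^+ h^(a, b)`, then the
monodromy-weight conjecture holds in the range above `k`; for `k = 0` the whole conjecture for `H^m`
holds. -/
def Maximal (T : Theories.{u, v, w} K Ω) (q : ℕ) (X : SmVar.{u} K) (m : ℕ) : Prop :=
  ∀ i : Option T.ι,
    (∀ k : ℕ, hodgeTail m k (T.hodge X m) ≤ rankTail (T.H i X) m k → WMAbove (T.H i X) q m k) ∧
    (hodgeTail m 0 (T.hodge X m) ≤ rankTail (T.H i X) m 0 → (T.H i X).MWPure q m)

end

/-- **Weights, slopes and Hodge numbers; the monodromy-weight conjecture for maximal ranks.** -/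
theorem result {K : Type u} [Field K] {Ω : Type w} [Field Ω] [CharZero Ω] [IsAlgClosed Ω]
    {T : Theories.{u, v, w} K Ω} {q : ℕ} (hq : 1 < q) (X : SmVar.{u} K) (hT : T.IsLocal q X) :
    (∀ m : ℕ, SameCharP T X m → Chain T q X m ∧ Maximal T q X m) ∧
    ∀ m : ℕ, m ≤ 2 * X.dim → GoodOutside (fun i => T.H i X) (2 * X.dim) m → SameCharP T X m := by
  refine ⟨?_, fun m hm hX => same_charP (fun i => hT.coh i) hm hT.zeta hX⟩
  rintro m ⟨hrat, hsame⟩
  have hchain : ∀ (i : Option T.ι) (k : ℕ),
      (weightTail (T.H i X) q m k : ℝ) ≤ slopeTail (T.H i X) T.val m k ∧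
      slopeTail (T.H i X) T.val m k ≤ (hodgeTail m k (T.hodge X m) : ℝ) := by
    intro i k
    refine ⟨weight_le_slope hq (hT.coh i) (hrat i) hT.val k, ?_⟩
    rw [slopeTail_congr (hT.coh i) (hT.coh none) (hsame i none)]
    exact slope_le_hodge (hT.polygons m) k
  refine ⟨⟨hchain, fun i i' k => weightTail_congr hq (hT.coh i) (hT.coh i') (hsame i i') k⟩, ?_⟩
  intro i
  have key : ∀ k : ℕ, hodgeTail m k (T.hodge X m) ≤ rankTail (T.H i X) m k →
      WMAbove (T.H i X) q m k := by
    intro k h
    have h6 := tail_deg hq (hT.coh i) m k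
    obtain ⟨h2, h3⟩ := hchain i k
    have h5 : weightTail (T.H i X) q m k ≤ hodgeTail m k (T.hodge X m) := by
      exact_mod_cast h2.trans h3
    exact h6.2.1 (by have := h6.1; omega)
  exact ⟨key, fun h => (wmAbove_zero hq (hT.coh i) m).1 (key 0 h)⟩

end Pool.Agent.Results.MP_cd312e_ag.MaximalRanks
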