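import Pool.Agent.Q173.OS.Trans

/-!
# MP_cd312e_ag: the monodromy-weight conjecture for one prime number and the poles of L-factors

`K` is a local field with residue field with `q` elements, `ι` the set of the prime numbers `ℓ ≠ p`
(or any nonempty set of them), `T ℓ` the `ℓ`-adic cohomology of the smooth proper varieties over `K`
(schemes of Mathlib) with the Frobenius `F` and the monodromy operator `N`, the coefficients being
extended to one algebraically closed field `Ω`; `IsLocal` are the known properties.

Suppose that the monodromy-weight conjecture holds for the variety `X` and ONE prime number `ℓ'`. Then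
it holds for `X` and the prime number `ℓ` if and only if the poles `s` with `Re s > (j + n) / 2` of the
local `ℓ`-adic `L`-factors of `H^j(Y)` are poles of the `ℓ'`-adic ones, for one variety
`Y = (X × E^k)^(n + 1)`, `E` a Tate curve, `n ≥ 0`; the same holds for `Y = (X × X)^(n + 1)`,
`Re s > (j + 2 n + 1) / 2`. In particular, if the local `L`-factors of `X × E^k` or of `X × X` do not
depend on `ℓ` (Serre's conjecture), then the conjecture for `X` and one `ℓ` implies the conjecture for
`X` and all `ℓ`. The conjecture for `X` and all `ℓ` is equivalent to the conjecture for `X` and one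
`ℓ` and the independence of these poles.
-/

set_option autoImplicit false

open Module

universe u v w

namespace Pool.Agent.Results.MP_cd312e_ag.OnePrimeAndPoles

open Pool.Agent.H914 Pool.Agent.Y143 Pool.Agent.Y163.MW Pool.Agent.Q57.WM Pool.Agent.Q173.OS

section

variable {K : Type u} [Field K] {Ω : Type w} [Field Ω] [CharZero Ω] {ι : Type}

/-- The monodromy-weight conjecture for `X` and the theory `T`. -/
def MW (T : Theory.{u, v, w} K Ω) (q : ℕ) (X : SmVar.{u} K) : Prop := ∀ m, (T.H X).MWPure q m

/-- From one prime number `i'` to another one `i`, by the products with powers of a Tate curve. -/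
def TransferStack (T : ι → Theory.{u, v, w} K Ω) (q : ℕ) : Prop :=
  ∀ (X E : SmVar.{u} K), (∀ i, IsTest ((T i).H E) q) → ∀ k : ℕ,
    (∀ i m, WMAbove ((T i).H X) q m (k + 1)) → ∀ (n : ℕ) (i i' : ι), MW (T i') q X →
      (MW (T i) q X ↔ PolesAmong ((T i).H (pow (stack X E k) n))
        ((T i').H (pow (stack X E k) n)) q n)

/-- From one prime number `i'` to another one `i`, by the powers of `X × X`. -/
def TransferSquare (T : ι → Theory.{u, v, w} K Ω) (q : ℕ) : Prop :=
  ∀ (X : SmVar.{u} K) (n : ℕ) (i i' : ι), MW (T i') q X →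
    (MW (T i) q X ↔ PolesAmong ((T i).H (pow (X.prod X) n)) ((T i').H (pow (X.prod X) n)) q
      (2 * n + 1))

/-- All prime numbers: the conjecture for `X` and all of them is equivalent to the conjecture for `X`
and one of them and the independence of the poles with `Re s > (j + 2 n + 1) / 2` of the local
`L`-factors of the `H^j(Y)`, `Y = (X × X)^(n + 1)`. -/
def AllPrimes (T : ι → Theory.{u, v, w} K Ω) (q : ℕ) : Prop :=
  ∀ (X : SmVar.{u} K) (n : ℕ), (∀ i, MW (T i) q X) ↔ (∃ i, MW (T i) q X) ∧
    ∀ i i', PolesAmong ((T i).H (pow (X.prod X) n)) ((T i').H (pow (X.prod X) n)) q (2 * n + 1)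

/-- The same with `Y = (X × E^k)^(n + 1)` and the poles with `Re s > (j + n) / 2`. -/
def AllPrimesStack (T : ι → Theory.{u, v, w} K Ω) (q : ℕ) : Prop :=
  ∀ (X E : SmVar.{u} K), (∀ i, IsTest ((T i).H E) q) → ∀ k : ℕ,
    (∀ i m, WMAbove ((T i).H X) q m (k + 1)) → ∀ n : ℕ,
      ((∀ i, MW (T i) q X) ↔ (∃ i, MW (T i) q X) ∧ ∀ i i',
        PolesAmong ((T i).H (pow (stack X E k) n)) ((T i').H (pow (stack X E k) n)) q n)

/-- The conjecture for `X` and one prime number `i` alone: it holds if and only if no local
`L`-factor of `H^j(Y)` has a pole with `Re s > (j + n) / 2`, `Y = (X × E^k)^(n + 1)`. -/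
def NoPoles (T : ι → Theory.{u, v, w} K Ω) (q : ℕ) : Prop :=
  ∀ (i : ι) (X E : SmVar.{u} K), IsTest ((T i).H E) q → ∀ k : ℕ,
    (∀ m, WMAbove ((T i).H X) q m (k + 1)) → ∀ n : ℕ,
      (MW (T i) q X ↔ ∀ (j : ℕ) (α : Ω), IsPole ((T i).H (pow (stack X E k) n)) j α →
        ∀ w : ℤ, IsWeilNumber q w α → w ≤ j + n)

end

/-- **One prime number and the poles of local `L`-factors.** -/
theorem result {K : Type u} [Field K] {Ω : Type w} [Field Ω] [CharZero Ω] [IsAlgClosed Ω]
    {ι : Type} [Nonempty ι] {T : ι → Theory.{u, v, w} K Ω} {q : ℕ} (hq : 1 < q)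
    (hT : ∀ i, (T i).IsLocal q) :
    TransferStack T q ∧ TransferSquare T q ∧ AllPrimes T q ∧ AllPrimesStack T q ∧ NoPoles T q := by
  have h1 : TransferStack T q := fun X E hE k hk n i i' h' =>
    transfer_stack hq (hT i) (hT i') (hE i) (hE i') (hk i) h' n
  have h2 : TransferSquare T q := fun X n i i' h' => transfer_square hq (hT i) (hT i') h' n
  refine ⟨h1, h2, ?_, ?_, ?_⟩
  · intro X n
    constructor
    · intro h
      exact ⟨⟨Classical.arbitrary ι, h _⟩, fun i i' => (h2 X n i i' (h i')).1 (h i)⟩
    · rintro ⟨⟨i', hi'⟩, h⟩ i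
      exact (h2 X n i i' hi').2 (h i i')
  · intro X E hE k hk n
    constructor
    · intro h
      exact ⟨⟨Classical.arbitrary ι, h _⟩, fun i i' => (h1 X E hE k hk n i i' (h i')).1 (h i)⟩
    · rintro ⟨⟨i', hi'⟩, h⟩ i
      exact (h1 X E hE k hk n i i' hi').2 (h i i')
  · intro i X E hE k hk n
    rw [← invBound_iff_pole]
    exact ⟨fun h => (bound_stack hq (hT i) hE h k n).mono (by omega),
      fun h m => pure_of_stack hq (hT i) hE (hk m) n fun a _ => h _⟩

end Pool.Agent.Results.MP_cd312e_ag.OnePrimeAndPoles
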