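import Pool.Agent.Q57.WM.Fam

/-!
# MP_cd312e_ag: the ranks of the powers of the monodromy operator and the weights

`X` is a smooth proper variety over a finite extension `K` of `ℚ_p` whose residue field has `q`
elements. The varieties `SmVar K` are schemes of Mathlib; the cohomology theories `Theories` (the
`ℓ`-adic cohomology for all `ℓ ≠ p`, and the Hyodo-Kato cohomology) are data with the known properties
`IsLocal` (for `X`). Let `S_k = ∑_{r > k} rank (N ^ r)` on `H^m(X)` and
`W_k = ∑_w (2 (w - m - k) - 1)^+`, the sum being over the weights `w` of the eigenvalues of the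
Frobenius on `H^m(X)`.

For every theory and all `m`, `k`: `S_k ≤ W_k`, with equality exactly if the monodromy-weight
conjecture for `H^m` holds in the range above `k`; the range above `0` is the whole conjecture.
Therefore two theories with the same characteristic polynomial of the Frobenius on `H^m` can be compared:
if the conjecture holds for one of them above `k`, then its `S_k` is the larger one, and the conjecture
holds for the other one above `k` exactly if its `S_k` is the same.
-/

set_option autoImplicit false

open Module

universe u v w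

namespace Pool.Agent.Results.MP_cd312e_ag.RankCriterion

open Pool.Agent.H914 Pool.Agent.Y163.MW Pool.Agent.Y143 Pool.Agent.Y163.MX Pool.Agent.Q57.WM

section

variable {K : Type u} [Field K] {Ω : Type w} [Field Ω] [CharZero Ω]

/-- For every theory `∑_{r > k} rank (N ^ r) ≤ ∑_w (2 (w - m - k) - 1)^+`, with equality exactly if
the monodromy-weight conjecture for `H^m` holds in the range above `k`, and the range above `0` is
the conjecture for `H^m`. -/
def Criterion (T : Theories.{u, v, w} K Ω) (q : ℕ) (X : SmVar.{u} K) (m : ℕ) : Prop :=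
  ∀ i : Option T.ι,
    (∀ k : ℕ, rankTail (T.H i X) m k ≤ weightTail (T.H i X) q m k ∧
      (WMAbove (T.H i X) q m k ↔ rankTail (T.H i X) m k = weightTail (T.H i X) q m k)) ∧
    (WMAbove (T.H i X) q m 0 ↔ (T.H i X).MWPure q m)

/-- Two theories with the same characteristic polynomial of the Frobenius on `H^m`. -/
def Comparison (T : Theories.{u, v, w} K Ω) (q : ℕ) (X : SmVar.{u} K) (m : ℕ) : Prop :=
  ∀ i i' : Option T.ι, charP (T.H i X) m = charP (T.H i' X) m → ∀ k : ℕ,
    weightTail (T.H i X) q m k = weightTail (T.H i' X) q m k ∧
    (WMAbove (T.H i X) q m k → rankTail (T.H i' X) m k ≤ rankTail (T.H i X) m k ∧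
      (WMAbove (T.H i' X) q m k ↔ rankTail (T.H i' X) m k = rankTail (T.H i X) m k))

end

/-- **Powers of the monodromy operator and weights.** -/
theorem result {K : Type u} [Field K] {Ω : Type w} [Field Ω] [CharZero Ω] [IsAlgClosed Ω]
    {T : Theories.{u, v, w} K Ω} {q : ℕ} (hq : 1 < q) (X : SmVar.{u} K) (hT : T.IsLocal q X) :
    ∀ m : ℕ, Criterion T q X m ∧ Comparison T q X m := by
  have hcrit : ∀ m, Criterion T q X m := fun m i =>
    ⟨fun k => ⟨(tail_deg hq (hT.coh i) m k).1, (tail_deg hq (hT.coh i) m k).2.symm⟩,
      wmAbove_zero hq (hT.coh i) m⟩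
  refine fun m => ⟨hcrit m, ?_⟩
  intro i i' hch k
  have h1 : weightTail (T.H i X) q m k = weightTail (T.H i' X) q m k :=
    weightTail_congr hq (hT.coh i) (hT.coh i') hch k
  refine ⟨h1, fun hk => ?_⟩
  have h2 := ((hcrit m i).1 k).2.1 hk
  have h3 := ((hcrit m i').1 k).1
  refine ⟨by omega, ?_⟩
  rw [((hcrit m i').1 k).2]
  omega

end Pool.Agent.Results.MP_cd312e_ag.RankCriterion
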