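import Pool.Agent.Q57.WM.Fam
import Pool.Agent.Q57.PL.Slopes

/-!
# MP_cd312e_ag: the ranks of the powers of the monodromy operator, slopes and Hodge numbers

`X` is a smooth proper variety over a finite extension `K` of `ℚ_p` whose residue field has `q`
elements. The varieties `SmVar K` are schemes of Mathlib; the cohomology theories `Theories` (the
`ℓ`-adic cohomology for all `ℓ ≠ p`, and the Hyodo-Kato cohomology) are data with the known properties
`IsLocal` (for `X`). Let `S_k = ∑_{r > k} rank (N ^ r)` on `H^m(X)`.

For the Hyodo-Kato cohomology, without any condition on `X`,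
`S_k ≤ ∑_λ (2 (2 λ - m - k) - 1)^+ ≤ ∑_{a + b = m} (2 (a - b - k) - 1)^+ h^(a, b)`, the first sum being over
the slopes. If the monodromy-weight conjecture holds for the Hyodo-Kato cohomology of degree `m` above
`k`, then both inequalities hold for the `ℓ`-adic cohomology, if the characteristic polynomials of the
Frobenius on `H^m` are the same.
-/

set_option autoImplicit false

open Module

universe u v w

namespace Pool.Agent.Results.MP_cd312e_ag.SlopeBounds

open Pool.Agent.H914 Pool.Agent.Y163.MW Pool.Agent.Y143 Pool.Agent.Y163.MX Pool.Agent.Q57.WM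

section

variable {K : Type u} [Field K] {Ω : Type w} [Field Ω] [CharZero Ω]

/-- The Hyodo-Kato cohomology: `∑_{r > k} rank (N ^ r)` is at most the sum of the numbers
`(2 (2 λ - m - k) - 1)^+` over the slopes `λ`, and this is at most the sum for the Hodge numbers. If
the conjecture holds for it above `k`, then the same holds for the `ℓ`-adic cohomology, if the
characteristic polynomials of the Frobenius on `H^m` are the same. -/
def Crystalline (T : Theories.{u, v, w} K Ω) (q : ℕ) (X : SmVar.{u} K) (m : ℕ) : Prop :=
  ∀ k : ℕ, (rankTail (T.H none X) m k : ℝ) ≤ slopeTail (T.H none X) T.val m k ∧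
    slopeTail (T.H none X) T.val m k ≤ (hodgeTail m k (T.hodge X m) : ℝ) ∧
    (WMAbove (T.H none X) q m k → ∀ i : Option T.ι, charP (T.H none X) m = charP (T.H i X) m →
      (rankTail (T.H i X) m k : ℝ) ≤ slopeTail (T.H none X) T.val m k)

end

/-- **Powers of the monodromy operator, slopes and Hodge numbers.** -/
theorem result {K : Type u} [Field K] {Ω : Type w} [Field Ω] [CharZero Ω] [IsAlgClosed Ω]
    {T : Theories.{u, v, w} K Ω} {q : ℕ} (hq : 1 < q) (X : SmVar.{u} K) (hT : T.IsLocal q X) :
    ∀ m : ℕ, Crystalline T q X m := by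
  intro m k
  have h1 := Pool.Agent.Q57.PL.rank_le_slope hq (hT.coh none) hT.val m k
  refine ⟨h1, slope_le_hodge (hT.polygons m) k, fun hk i hch => ?_⟩
  have h2 : rankTail (T.H i X) m k ≤ rankTail (T.H none X) m k := by
    rw [(tail_deg hq (hT.coh none) m k).2.2 hk, weightTail_congr hq (hT.coh none) (hT.coh i) hch k]
    exact (tail_deg hq (hT.coh i) m k).1
  have h3 : (rankTail (T.H i X) m k : ℝ) ≤ (rankTail (T.H none X) m k : ℝ) := by
    exact_mod_cast h2
  exact h3.trans h1

end Pool.Agent.Results.MP_cd312e_ag.SlopeBounds
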